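import Pool.Agent.H128.Fan.Lk
import Pool.Agent.H128.Bend.Cls

/-!
# The top gamma numbers of bent complete simplicial fans

`S` is the set of faces of a simplicial complex on `Fin n`, and `p` realizes it as a complete simplicial fan in `ℝ^d`
(which need not be rational or the normal fan of a polytope).

The hypothesis `Admissible S p`: the fan bends at all faces `H` for which `d - |H|` is odd, or it is in the class
`Bent`. `Bends S p H`: there is a positive semidefinite quadratic relation `∑ G_uv x_u x_v = 0` in the face ring modulo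
the linear forms (for example given by a realization of the fan in some `ℝ^N` which is isometric on the cones) and a
vector in the image of `G` which is zero on `H` and positive on the link of `H`. The class `Bent` contains the fans
without nonzero positive semidefinite `2`-stress, the fans of simplicial hyperplane arrangements, the fans in the plane
with at least four rays, the fans obtained from all these by edge subdivisions and joins, the fans with a strictly
convex function whose negative square is a sum of squares, and the common refinements of preimages of bent fans under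
linear maps (in particular, normal fans of simple Minkowski sums).
-/

set_option autoImplicit false

namespace Pool.Agent.Results.MP_19e880_co.BentFans

open Pool.Agent.Helper611.ZBase Pool.Agent.H252R2.Lef7 Pool.Agent.H252R2.CDNum Pool.Agent.H128.Fan
  Pool.Agent.H128.Bend

/-- The link of `H`. -/
def link {n : ℕ} (S : Finset (Finset (Fin n))) (H : Finset (Fin n)) : Finset (Finset (Fin n)) :=
  S.filter fun G => Disjoint G H ∧ G ∪ H ∈ S

/-- `γ` is the `γ`-vector of the `(e - 1)`-dimensional complex with set of faces `L`: its `h`-polynomial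
`∑ f_{j-1} X^j (1 - X)^(e - j)` is `∑ γ_i X^i (1 + X)^(e - 2 i)`, `i ≤ e / 2`. -/
def IsGammaVector {n : ℕ} (L : Finset (Finset (Fin n))) (e : ℕ) (γ : ℕ → ℤ) : Prop :=
  ∑ j ∈ Finset.range (e + 1), Polynomial.C (((L.filter fun G => G.card = j).card : ℕ) : ℤ) *
      Polynomial.X ^ j * (1 - Polynomial.X) ^ (e - j) =
    ∑ i ∈ Finset.range (e / 2 + 1), Polynomial.C (γ i) * Polynomial.X ^ i * (1 + Polynomial.X) ^ (e - 2 * i)

/-- **Top gamma numbers of bent fans.** Let `S`, `p` be an admissible complete simplicial fan in `ℝ^d`, and let `γ` be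
the `γ`-vector of the link of a face `H`, an `(e - 1)`-sphere, `e = d - |H|`. Then `γ_{⌊e/2⌋} ≥ 0`, and
`∑ i, (i choose m) γ_i / 4^i ≥ 0` for all `m ≤ e / 2`. -/
theorem result {n d : ℕ} (hd : 1 ≤ d) (S : Finset (Finset (Fin n))) (p : Fin n → Fin d → ℝ)
    (h : Admissible S p) (H : Finset (Fin n)) (hH : H ∈ S) (γ : ℕ → ℤ)
    (hγ : IsGammaVector (link S H) (d - H.card) γ) :
    0 ≤ γ ((d - H.card) / 2) ∧ ∀ m, m ≤ (d - H.card) / 2 →
      0 ≤ ∑ i ∈ Finset.range ((d - H.card) / 2 + 1), (i.choose m : ℚ) * (1 / 4) ^ i * (γ i : ℚ) := by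
  obtain ⟨hS, hfan, hb⟩ := admissible h
  have h0 : (∅ : Finset (Fin n)) ∈ S := hS H hH ∅ (Finset.empty_subset H)
  let Γ : Cx (Fin n) := ⟨S, h0, fun σ hσ τ hτ => hS σ hσ τ hτ⟩
  have hf : IsFan Γ p := hfan
  have hcd := fun K hK m hm => charney_davisB hf hd hb K hK m hm
  have hs : ∀ σ ∈ Γ.faces, σ.card ≤ d := by
    intro σ hσ
    have := (Pool.Agent.H128.Fan.Lem.fan_li hf σ hσ).fintype_card_le_finrank
    simpa using this
  have hall := fun m (hm : m ≤ (d - H.card) / 2) =>
    Pool.Agent.H128.Fan.Lem.gamma_all (Γ := lkC Γ H hH) (lkC_small hs H hH) γ (by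
    rw [← hpoly]
    refine Eq.trans ?_ (hγ.trans ?_)
    · rfl
    · refine Finset.sum_congr rfl fun i _ => ?_
      rw [mul_assoc, Polynomial.C_mul']) (by
    intro K hK m hm
    rw [lkf_lkC Γ H hH K hK]
    have hK' := mem_lkf.1 hK
    refine hcd (K ∪ H) hK'.2 m ?_
    rw [Finset.card_union_of_disjoint hK'.1]
    have := hs _ hK'.2
    rw [Finset.card_union_of_disjoint hK'.1] at this
    omega) m hm
  refine ⟨?_, hall⟩
  have h1 := hall _ le_rfl
  rw [Finset.sum_eq_single_of_mem _ (Finset.mem_range.2 (Nat.lt_succ_self _))] at h1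
  · rw [Nat.choose_self, Nat.cast_one, one_mul] at h1
    have h2 : (0 : ℚ) < (1 / 4) ^ ((d - H.card) / 2) := by positivity
    have h3 := nonneg_of_mul_nonneg_right h1 h2
    exact_mod_cast h3
  · intro i hi hne
    have hi' := Finset.mem_range.1 hi
    rw [Nat.choose_eq_zero_of_lt (by omega), Nat.cast_zero, zero_mul, zero_mul]

end Pool.Agent.Results.MP_19e880_co.BentFans
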