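import Pool.Agent.H861.GL.Fac

/-!
# Linear inequalities for the `γ`-vectors of flag mod 2 homology spheres and their links

Let `K` be a flag mod `2` homology sphere of dimension `d - 1` and `F` a face of `K`. Then the
`g`-numbers of `K` are at least the `g`-numbers of the `|F|`-fold suspension of the link of `F`
(the join of the link with the boundary of the cross-polytope of dimension `|F|`). In particular
the boundary of the cross-polytope has the smallest `g`-numbers.
-/

set_option autoImplicit false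

namespace Pool.Agent.Results.MP_19e880_co.FlagLinkInequalities

open Finset Polynomial

/-- simplicial complex with vertices among `0, ..., n-1`: a family of finsets containing the
empty set and closed under taking subsets -/
def IsComplex {n : ℕ} (K : Finset (Finset (Fin n))) : Prop :=
  ∅ ∈ K ∧ ∀ σ ∈ K, ∀ τ : Finset (Fin n), τ ⊆ σ → τ ∈ K

/-- flag complexes: a set of pairwise adjacent vertices is a face (`{a, a}` is the vertex `a`) -/
def IsFlag {n : ℕ} (K : Finset (Finset (Fin n))) : Prop :=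
  ∀ F : Finset (Fin n), (∀ a ∈ F, ∀ b ∈ F, ({a, b} : Finset (Fin n)) ∈ K) → F ∈ K

/-- the chain `c`, with coefficients modulo `2`, is supported on the faces of `K` with `j`
vertices -/
def SupportedOn {n : ℕ} (K : Finset (Finset (Fin n))) (j : ℕ) (c : Finset (Fin n) → ZMod 2) :
    Prop :=
  ∀ σ, c σ ≠ 0 → σ ∈ K ∧ σ.card = j

/-- the boundary of a chain (the augmentation is included: the empty face has dimension `-1`) -/
def boundary {n : ℕ} (c : Finset (Fin n) → ZMod 2) (ρ : Finset (Fin n)) : ZMod 2 :=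
  ∑ v ∈ ρᶜ, c (insert v ρ)

/-- the reduced mod `2` homology of `K` vanishes in dimension `j - 1` -/
def AcyclicAt {n : ℕ} (K : Finset (Finset (Fin n))) (j : ℕ) : Prop :=
  ∀ c : Finset (Fin n) → ZMod 2, SupportedOn K j c → (∀ ρ, boundary c ρ = 0) →
    ∃ b, SupportedOn K (j + 1) b ∧ ∀ ρ, c ρ = boundary b ρ

/-- the link of the face `σ` -/
def link {n : ℕ} (K : Finset (Finset (Fin n))) (σ : Finset (Fin n)) : Finset (Finset (Fin n)) :=
  univ.filter (fun τ => Disjoint τ σ ∧ τ ∪ σ ∈ K)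

/-- mod `2` homology spheres of dimension `d - 1`: the link of every face `σ` (also of the empty
face) has the reduced mod `2` homology of a sphere of dimension `d - 1 - |σ|` (the top homology
has exactly one nonzero class) -/
def IsHomologySphere {n : ℕ} (K : Finset (Finset (Fin n))) (d : ℕ) : Prop :=
  IsComplex K ∧ (∀ σ ∈ K, σ.card ≤ d) ∧
    (∀ σ ∈ K, ∀ j, j + σ.card ≠ d → AcyclicAt (link K σ) j) ∧
    ∀ σ ∈ K, ∃ z : Finset (Fin n) → ZMod 2, z ≠ 0 ∧ SupportedOn (link K σ) (d - σ.card) z ∧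
      (∀ ρ, boundary z ρ = 0) ∧
      ∀ z', SupportedOn (link K σ) (d - σ.card) z' → (∀ ρ, boundary z' ρ = 0) → z' = 0 ∨ z' = z

/-- the `h`-polynomial of a complex of dimension `d - 1`: `∑ f_(i-1) t^i (1 - t)^(d-i)` -/
noncomputable def hPoly {n : ℕ} (K : Finset (Finset (Fin n))) (d : ℕ) : ℤ[X] :=
  ∑ σ ∈ K, X ^ σ.card * (1 - X) ^ (d - σ.card)

/-- the `g`-numbers of a polynomial: the differences of consecutive coefficients -/
noncomputable def g (P : ℤ[X]) (j : ℕ) : ℤ :=
  P.coeff j - (if j = 0 then 0 else P.coeff (j - 1))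

/-- ballot numbers `C(d, j) - C(d, j - 1)`, the `g`-numbers of the boundary of the
cross-polytope of dimension `d` -/
def ballot (d j : ℕ) : ℤ := (d.choose j : ℤ) - (if j = 0 then 0 else (d.choose (j - 1) : ℤ))

/-- `γ` is the `γ`-vector of the `(d-1)`-dimensional complex `K` (only the `γ i` with `i ≤ d / 2`
matter) -/
def IsGamma {n : ℕ} (K : Finset (Finset (Fin n))) (d : ℕ) (γ : ℕ → ℤ) : Prop :=
  hPoly K d = ∑ i ∈ range (d / 2 + 1), C (γ i) * X ^ i * (1 + X) ^ (d - 2 * i)

/-- entry `i` of the `γ`-vector `γ` of a complex of dimension `e - 1` (zero for `i > e / 2`) -/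
def entry (γ : ℕ → ℤ) (e i : ℕ) : ℤ := if i ≤ e / 2 then γ i else 0

theorem gamma_zero {n : ℕ} {K : Finset (Finset (Fin n))} {d : ℕ} {γ : ℕ → ℤ}
    (h : IsGamma K d γ) (h1 : (hPoly K d).coeff 0 = 1) : γ 0 = 1 := by
  have h2 : (hPoly K d).coeff 0 = (∑ i ∈ range (d / 2 + 1),
      C (γ i) * X ^ i * (1 + X) ^ (d - 2 * i)).coeff 0 := by rw [← h]
  rw [h1, Polynomial.finsetSum_coeff, Finset.sum_eq_single 0] at h2
  · rw [pow_zero, mul_one, Polynomial.coeff_C_mul, Polynomial.coeff_zero_eq_eval_zero] at h2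
    simp at h2
    exact h2.symm
  · intro i _ hi
    rw [Polynomial.coeff_zero_eq_eval_zero]
    simp [hi]
  · intro h3
    exact absurd (mem_range.2 (by omega)) h3

theorem result {n d : ℕ} (K : Finset (Finset (Fin n))) (hK : IsHomologySphere K d)
    (hf : IsFlag K) :
    -- comparison with the suspension of the link of a face
    (∀ F ∈ K, ∀ j, 2 * j ≤ d →
      g ((1 + X) ^ F.card * hPoly (link K F) (d - F.card)) j ≤ g (hPoly K d) j) ∧
    -- the `γ`-vectors of `K` and of its links exist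
    (∀ F ∈ K, ∃ γ : ℕ → ℤ, IsGamma (link K F) (d - F.card) γ) ∧ (∃ γ : ℕ → ℤ, IsGamma K d γ) ∧
    -- linear inequalities between the `γ`-vectors of `K` and of a link
    (∀ γ : ℕ → ℤ, IsGamma K d γ → ∀ F ∈ K, ∀ γ' : ℕ → ℤ, IsGamma (link K F) (d - F.card) γ' →
      ∀ j, 2 * j ≤ d →
        0 ≤ ∑ i ∈ Icc 1 j, (γ i - entry γ' (d - F.card) i) * ballot (d - 2 * i) (j - i)) ∧
    -- the special case of facets `F`: cross-polytopes minimize the `g`-numbers
    (∀ j, 2 * j ≤ d → ballot d j ≤ g (hPoly K d) j) ∧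
    (∀ γ : ℕ → ℤ, IsGamma K d γ → ∀ j, 2 * j ≤ d →
      0 ≤ ∑ i ∈ Icc 1 j, γ i * ballot (d - 2 * i) (j - i)) ∧
    (∀ γ : ℕ → ℤ, IsGamma K d γ → ∀ m, d = 2 * m →
      0 ≤ ∑ i ∈ Icc 1 m, γ i * (catalan (m - i) : ℤ)) := by
  have hH : Y131.KS.HSph K d := ⟨hK.1, hK.2.1, hK.2.2.1, hK.2.2.2⟩
  have hF : H861.GL.Flag K := hf
  have hg : ∀ (P : ℤ[X]) (j : ℕ), g P j = H861.GL.gco P j := fun _ _ => rfl
  have hP : ∀ (L : Finset (Finset (Fin n))) (e : ℕ), hPoly L e = H861.GL.hP L e :=
    fun _ _ => rfl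
  have hb : ∀ e j, ballot e j = H861.GL.ballot e j := fun _ _ => rfl
  have hl : ∀ F, link K F = Y131.KS.lk K F := fun _ => rfl
  have h1 : ∀ F ∈ K, ∀ j, 2 * j ≤ d →
      g ((1 + X) ^ F.card * hPoly (link K F) (d - F.card)) j ≤ g (hPoly K d) j :=
    fun F hFK j hj => H861.GL.face_ineq F d K hH hF hFK j (by omega)
  have h5 : ∀ j, 2 * j ≤ d → ballot d j ≤ g (hPoly K d) j :=
    fun j hj => H861.GL.cross_ineq hH hF (by omega)
  have hex : ∀ (L : Finset (Finset (Fin n))) (e : ℕ), Y131.KS.HSph L e →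
      ∃ γ : ℕ → ℤ, IsGamma L e γ := by
    intro L e hL
    have hs := H861.GL.sym_hP hL
    exact H861.GL.gamma_exists _ e hs.1 hs.2
  have hc0 : (hPoly K d).coeff 0 = 1 := H861.GL.hP_coeff_zero hH
  have hIcc : ∀ (j : ℕ) (f : ℕ → ℤ), ∑ i ∈ range (j + 1), f i = f 0 + ∑ i ∈ Icc 1 j, f i := by
    intro j f
    rw [Finset.range_eq_Ico, Finset.sum_eq_sum_Ico_succ_bot (Nat.succ_pos j)]
    congr 1
  have h6 : ∀ γ : ℕ → ℤ, IsGamma K d γ → ∀ j, 2 * j ≤ d →
      0 ≤ ∑ i ∈ Icc 1 j, γ i * ballot (d - 2 * i) (j - i) := by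
    intro γ hγ j hj
    have h2 := h5 j hj
    have h3 := H861.GL.ballot_form γ d j (by omega)
    rw [← hγ, ← hg] at h3
    rw [h3, hIcc] at h2
    rw [gamma_zero hγ hc0, one_mul, Nat.mul_zero, Nat.sub_zero, Nat.sub_zero, ← hb] at h2
    have h4 : 0 ≤ ∑ i ∈ Icc 1 j, γ i * H861.GL.ballot (d - 2 * i) (j - i) := by linarith
    exact h4
  refine ⟨h1, fun F hFK => hex _ _ (H861.GL.hsph_lk hH hFK), hex _ _ hH, ?_, h5, h6, ?_⟩
  · intro γ hγ F hFK γ' hγ' j hj
    have h2 := h1 F hFK j hj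
    have hFd := hH.card_le F hFK
    have e1 : (1 + X) ^ F.card * hPoly (link K F) (d - F.card) =
        ∑ i ∈ range (d / 2 + 1), C (entry γ' (d - F.card) i) * X ^ i * (1 + X) ^ (d - 2 * i) := by
      rw [hγ', mul_sum]
      have e2 : range ((d - F.card) / 2 + 1) ⊆ range (d / 2 + 1) := by
        intro i hi
        rw [mem_range] at hi ⊢
        omega
      rw [← Finset.sum_subset e2]
      · refine sum_congr rfl fun i hi => ?_
        rw [mem_range] at hi
        have e3 : d - 2 * i = F.card + (d - F.card - 2 * i) := by omega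
        rw [entry, if_pos (by omega), e3, pow_add]
        ring
      · intro i _ hi
        rw [mem_range] at hi
        rw [entry, if_neg (by omega), C_0, zero_mul, zero_mul]
    have h3 := H861.GL.ballot_form γ d j (by omega)
    have h4 := H861.GL.ballot_form (entry γ' (d - F.card)) d j (by omega)
    rw [← hγ, ← hg] at h3
    rw [← e1, ← hg] at h4
    rw [h3, h4, hIcc, hIcc] at h2
    have h7 : γ 0 = 1 := gamma_zero hγ hc0
    have h8 : entry γ' (d - F.card) 0 = 1 := by
      rw [entry, if_pos (Nat.zero_le _)]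
      exact gamma_zero hγ' (H861.GL.hP_coeff_zero (H861.GL.hsph_lk hH hFK))
    rw [h7, h8] at h2
    simp only [sub_mul, sum_sub_distrib]
    have h9 : ∑ i ∈ Icc 1 j, entry γ' (d - F.card) i * H861.GL.ballot (d - 2 * i) (j - i) ≤
      ∑ i ∈ Icc 1 j, γ i * H861.GL.ballot (d - 2 * i) (j - i) := by linarith
    exact sub_nonneg.2 h9
  · intro γ hγ m hm
    have h2 := h6 γ hγ m (by omega)
    refine le_trans h2 (le_of_eq (sum_congr rfl fun i hi => ?_))
    rw [mem_Icc] at hi
    have e3 : d - 2 * i = 2 * (m - i) := by omega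
    rw [e3, hb, H861.GL.ballot_central]

end Pool.Agent.Results.MP_19e880_co.FlagLinkInequalities
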