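import Pool.Agent.H861.GL.Fin3

/-!
# Lower bounds for the `g`-numbers of flag mod 2 homology spheres that are linear in the number
of vertices

Let `K` be a flag mod `2` homology sphere of dimension `d - 1`, `1 ≤ j`, `2 j + 1 ≤ d`. The main
inequality bounds `g_j(K)` from below by a sum over a sequence of vertices `v` with faces
`G_v ∋ v` whose stars avoid the earlier vertices: the summand is the number `g_(j-1)` of the link
of a face `G_v ∪ {u_v}`. Averaging over all orders of the vertices gives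
`g_j(K) ≥ κ(d, j) ∑_v 1 / (1 + deg v)`.
-/

set_option autoImplicit false

namespace Pool.Agent.Results.MP_19e880_co.LinearGrowth

open Finset Polynomial

/-- simplicial complex with vertices among `0, ..., n-1`: a family of finsets containing the
empty set and closed under taking subsets -/
def IsComplex {n : ℕ} (K : Finset (Finset (Fin n))) : Prop :=
  ∅ ∈ K ∧ ∀ σ ∈ K, ∀ τ : Finset (Fin n), τ ⊆ σ → τ ∈ K

/-- flag complexes: a set of pairwise adjacent vertices is a face (`{a, a}` is the vertex `a`) -/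
def IsFlag {n : ℕ} (K : Finset (Finset (Fin n))) : Prop :=
  ∀ F : Finset (Fin n), (∀ a ∈ F, ∀ b ∈ F, ({a, b} : Finset (Fin n)) ∈ K) → F ∈ K

/-- the chain `c`, with coefficients modulo `2`, is supported on the faces of `K` with `j`
vertices -/
def SupportedOn {n : ℕ} (K : Finset (Finset (Fin n))) (j : ℕ) (c : Finset (Fin n) → ZMod 2) :
    Prop :=
  ∀ σ, c σ ≠ 0 → σ ∈ K ∧ σ.card = j

/-- the boundary of a chain (the augmentation is included: the empty face has dimension `-1`) -/
def boundary {n : ℕ} (c : Finset (Fin n) → ZMod 2) (ρ : Finset (Fin n)) : ZMod 2 :=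
  ∑ v ∈ ρᶜ, c (insert v ρ)

/-- the reduced mod `2` homology of `K` vanishes in dimension `j - 1` -/
def AcyclicAt {n : ℕ} (K : Finset (Finset (Fin n))) (j : ℕ) : Prop :=
  ∀ c : Finset (Fin n) → ZMod 2, SupportedOn K j c → (∀ ρ, boundary c ρ = 0) →
    ∃ b, SupportedOn K (j + 1) b ∧ ∀ ρ, c ρ = boundary b ρ

/-- the link of the face `σ` -/
def link {n : ℕ} (K : Finset (Finset (Fin n))) (σ : Finset (Fin n)) : Finset (Finset (Fin n)) :=
  univ.filter (fun τ => Disjoint τ σ ∧ τ ∪ σ ∈ K)

/-- mod `2` homology spheres of dimension `d - 1`: the link of every face `σ` (also of the empty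
face) has the reduced mod `2` homology of a sphere of dimension `d - 1 - |σ|` (the top homology
has exactly one nonzero class) -/
def IsHomologySphere {n : ℕ} (K : Finset (Finset (Fin n))) (d : ℕ) : Prop :=
  IsComplex K ∧ (∀ σ ∈ K, σ.card ≤ d) ∧
    (∀ σ ∈ K, ∀ j, j + σ.card ≠ d → AcyclicAt (link K σ) j) ∧
    ∀ σ ∈ K, ∃ z : Finset (Fin n) → ZMod 2, z ≠ 0 ∧ SupportedOn (link K σ) (d - σ.card) z ∧
      (∀ ρ, boundary z ρ = 0) ∧
      ∀ z', SupportedOn (link K σ) (d - σ.card) z' → (∀ ρ, boundary z' ρ = 0) → z' = 0 ∨ z' = z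

/-- the `h`-polynomial of a complex of dimension `d - 1`: `∑ f_(i-1) t^i (1 - t)^(d-i)` -/
noncomputable def hPoly {n : ℕ} (K : Finset (Finset (Fin n))) (d : ℕ) : ℤ[X] :=
  ∑ σ ∈ K, X ^ σ.card * (1 - X) ^ (d - σ.card)

/-- the `g`-numbers of a polynomial: the differences of consecutive coefficients -/
noncomputable def g (P : ℤ[X]) (j : ℕ) : ℤ :=
  P.coeff j - (if j = 0 then 0 else P.coeff (j - 1))

/-- ballot numbers `C(d, j) - C(d, j - 1)`, the `g`-numbers of the boundary of the
cross-polytope of dimension `d` -/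
def ballot (d j : ℕ) : ℤ := (d.choose j : ℤ) - (if j = 0 then 0 else (d.choose (j - 1) : ℤ))

/-- the set of vertices -/
def vertices {n : ℕ} (K : Finset (Finset (Fin n))) : Finset (Fin n) :=
  univ.filter (fun v : Fin n => ({v} : Finset (Fin n)) ∈ K)

/-- the number of vertices adjacent to `v` -/
def deg {n : ℕ} (K : Finset (Finset (Fin n))) (v : Fin n) : ℕ := (vertices (link K {v})).card

/-- the number of edges -/
def edges {n : ℕ} (K : Finset (Finset (Fin n))) : ℕ := (K.filter (fun F => F.card = 2)).card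

/-- the constant `κ(d, j) = ∑_(e < d - 2 j) b(d-2-e, j-1) * 2^e * C(d-1, e) / C(2 d - 2, e)` -/
noncomputable def kappa (d j : ℕ) : ℚ :=
  ∑ e ∈ range (d - 2 * j), (ballot (d - 2 - e) (j - 1) : ℚ) *
    (((d - 1).choose e : ℚ) * 2 ^ e / ((2 * (d - 1)).choose e : ℚ))

theorem result {n d : ℕ} (K : Finset (Finset (Fin n))) (hK : IsHomologySphere K d)
    (hf : IsFlag K) :
    (∀ j, 1 ≤ j → 2 * j + 1 ≤ d →
      -- sequences of vertices (the elements of `S` in the order given by `t`)
      (∀ (S : Finset (Fin n)) (t : Fin n → ℕ) (F : Fin n → Finset (Fin n)) (u : Fin n → Fin n),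
        Set.InjOn t (S : Set (Fin n)) →
        (∀ v ∈ S, v ∉ F v ∧ u v ∉ insert v (F v) ∧ insert (u v) (insert v (F v)) ∈ K ∧
          2 * j + (F v).card + 1 ≤ d ∧ ∀ w ∈ S, t w < t v → insert w (insert v (F v)) ∉ K) →
        ∑ v ∈ S, g (hPoly (link K (insert (u v) (insert v (F v)))) (d - (F v).card - 2)) (j - 1)
          ≤ g (hPoly K d) j ∧
        ∀ F₀ ∈ K, (∀ w ∈ S, insert w F₀ ∉ K) →
          ∑ v ∈ S,
            g (hPoly (link K (insert (u v) (insert v (F v)))) (d - (F v).card - 2)) (j - 1) +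
            g (hPoly (link K F₀) (d - F₀.card)) j ≤ g (hPoly K d) j) ∧
      -- averages over all orders of the vertices
      0 < kappa d j ∧
      kappa d j * ∑ v ∈ vertices K, 1 / ((deg K v : ℚ) + 1) ≤ (g (hPoly K d) j : ℚ) ∧
      kappa d j * ((vertices K).card : ℚ) ^ 2 ≤
        (g (hPoly K d) j : ℚ) * ((vertices K).card + 2 * edges K)) ∧
    -- the case `j = 2`: the number of edges
    (5 ≤ d →
      kappa d 2 * ((vertices K).card : ℚ) ^ 2 ≤
        ((edges K : ℚ) - d * (vertices K).card + (d + 1).choose 2) *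
          ((vertices K).card + 2 * edges K) ∧
      kappa d 2 * ((vertices K).card : ℚ) ≤
        (4 * d - 5) * ((edges K : ℚ) - d * (vertices K).card + (d + 1).choose 2)) := by
  have hH : Y131.KS.HSph K d := ⟨hK.1, hK.2.1, hK.2.2.1, hK.2.2.2⟩
  have hF : H861.GL.Flag K := hf
  have hk : ∀ e j, kappa e j = H861.GL.kappa e j := fun _ _ => rfl
  have hP : ∀ (L : Finset (Finset (Fin n))) (e j : ℕ),
      g (hPoly L e) j = H861.GL.gco (H861.GL.hP L e) j := fun _ _ _ => rfl
  have hl : ∀ A, link K A = Y131.KS.lk K A := fun _ => rfl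
  have hdeg : ∀ v, deg K v = (H861.GL.vx (Y131.KS.lk K {v})).card := fun _ => rfl
  have hv : vertices K = H861.GL.vx K := rfl
  have he : edges K = (K.filter (fun F => F.card = 2)).card := rfl
  have hsq : ∀ j, 1 ≤ j → 2 * j + 1 ≤ d → kappa d j * ((vertices K).card : ℚ) ^ 2 ≤
        (g (hPoly K d) j : ℚ) * ((vertices K).card + 2 * edges K) :=
    fun j h1 hjd => H861.GL.kappa_sq hH hF h1 hjd
  have hgco : 2 ≤ d → (g (hPoly K d) 2 : ℚ) =
      (edges K : ℚ) - d * (vertices K).card + (d + 1).choose 2 := by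
    intro h2
    have h := H861.GL.gco_two hH.cx hH.card_le h2
    rw [hP, h, he, hv]
    push_cast
    ring
  refine ⟨fun j h1 hjd => ⟨?_, ?_, ?_, hsq j h1 hjd⟩, fun h5 => ?_⟩
  · intro S t F u ht hS
    have key : ∀ v ∈ S, insert v (F v) ∈ K ∧ (insert v (F v)).card = (F v).card + 1 ∧
        ({u v} : Finset (Fin n)) ∈ Y131.KS.lk K (insert v (F v)) := by
      intro v hvS
      obtain ⟨a1, a2, a3, a4, a5⟩ := hS v hvS
      refine ⟨hH.cx.2 _ a3 _ (subset_insert _ _), card_insert_of_notMem a1, ?_⟩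
      rw [H861.GL.lk_mem_single]
      exact ⟨a2, a3⟩
    have hsum : ∑ v ∈ S,
        g (hPoly (link K (insert (u v) (insert v (F v)))) (d - (F v).card - 2)) (j - 1) =
        ∑ v ∈ S, H861.GL.gco (H861.GL.hP (Y131.KS.lk (Y131.KS.lk K (insert v (F v))) {u v})
          (d - (insert v (F v)).card - 1)) (j - 1) := by
      refine sum_congr rfl fun v hvS => ?_
      obtain ⟨b1, b2, b3⟩ := key v hvS
      rw [hP, hl, H861.GL.lk_union K b3, b2, insert_eq (u v)]
      congr 2
    have hnn := fun (F₀ : Finset (Fin n)) (h0 : F₀ ∈ K) (h00 : ∀ w ∈ S, insert w F₀ ∉ K) =>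
      H861.GL.chain_star hH hF h1 (by omega) S t ht (fun v => insert v (F v)) u
        (fun v hvS => (key v hvS).1) (fun v _ => mem_insert_self _ _)
        (fun v hvS => (key v hvS).2.2)
        (fun v hvS => by
          have b2 := (key v hvS).2.1
          have a4 := (hS v hvS).2.2.2.1
          rw [b2]
          omega)
        (fun v hvS => (hS v hvS).2.2.2.2) F₀ h0 h00
    refine ⟨?_, fun F₀ h0 h00 => ?_⟩
    · rw [hsum]
      rcases S.eq_empty_or_nonempty with rfl | hne
      · rw [sum_empty]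
        exact (H861.GL.ballot_nonneg (by omega)).trans
          (H861.GL.cross_ineq hH hF (by omega : 2 * j ≤ d + 1))
      · exact H861.GL.chain hH hF h1 S t ht (fun v => insert v (F v)) u
          (fun v hvS => (key v hvS).1) (fun v _ => mem_insert_self _ _)
          (fun v hvS => (key v hvS).2.2)
          (fun v hvS => by
            have b2 := (key v hvS).2.1
            have a4 := (hS v hvS).2.2.2.1
            rw [b2]
            omega)
          (fun v hvS => (hS v hvS).2.2.2.2) hne
    · rw [hsum]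
      exact hnn F₀ h0 h00
  · exact H861.GL.kappa_pos h1 hjd
  · exact H861.GL.kappa_ineq hH hF h1 hjd
  · have h6 := hsq 2 (by omega) (by omega)
    rw [hgco (by omega)] at h6
    refine ⟨h6, ?_⟩
    rw [hk, hv, he]
    rw [hk, hv, he] at h6
    exact H861.GL.lin_two h5 h6 (H861.GL.GoodFaux.card_vx d K hH hF)

end Pool.Agent.Results.MP_19e880_co.LinearGrowth
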